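import Pool.Agent.Q86.EM.Stm5
import Pool.Agent.Q151.EM.Emp
import Pool.Agent.H888R2.KT.V3

/-! # Project FD (helper86), job DLP: Lipschitz functions for a density from the regularisations -/

set_option autoImplicit false

namespace Pool.Agent.Q214.EM

open MeasureTheory Set Filter Topology
open scoped ENNReal InnerProductSpace ContDiff
open Pool.Agent.H888R2.KT (LC)
open Pool.Agent.H212R2.KLS (mu Bdd)
open Pool.Agent.Q86.EM

variable {κ : Type} [Fintype κ] {ρ : Eu κ → ℝ}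

theorem mu_smul {c : ℝ} (hc : 0 < c) (ρ : Eu κ → ℝ) :
    mu (fun x => c * ρ x) = ENNReal.ofReal c • mu ρ := by
  unfold Pool.Agent.H212R2.KLS.mu
  rw [← withDensity_smul' _ _ ENNReal.ofReal_ne_top]
  congr 1
  funext x
  rw [Pi.smul_apply, smul_eq_mul, ENNReal.ofReal_mul hc.le]

theorem lc_smul {c : ℝ} (hc : 0 < c) (h : LC ρ) : LC (fun x => c * ρ x) where
  nonneg x := mul_nonneg hc.le (h.nonneg x)
  meas := h.meas.const_mul c
  logc x y t ht0 ht1 := by
    have h1 := h.logc x y t ht0 ht1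
    rw [Real.mul_rpow hc.le (h.nonneg x), Real.mul_rpow hc.le (h.nonneg y)]
    have h2 : c ^ (1 - t) * c ^ t = c := by
      rw [← Real.rpow_add hc, sub_add_cancel, Real.rpow_one]
    calc c ^ (1 - t) * ρ x ^ (1 - t) * (c ^ t * ρ y ^ t)
        = (c ^ (1 - t) * c ^ t) * (ρ x ^ (1 - t) * ρ y ^ t) := by ring
      _ = c * (ρ x ^ (1 - t) * ρ y ^ t) := by rw [h2]
      _ ≤ _ := mul_le_mul_of_nonneg_left h1 hc.le
  bdd := by
    obtain ⟨R, hR⟩ := h.bdd
    exact ⟨R, fun x hx => by show c * ρ x = 0; rw [hR x hx, mul_zero]⟩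
  fin := by
    rw [mu_smul hc, Measure.smul_apply, smul_eq_mul]
    exact ENNReal.mul_ne_top ENNReal.ofReal_ne_top h.fin
  ne := by
    rw [mu_smul hc]
    intro h0
    have h1 := congrArg (fun ν : Measure (Eu κ) => ν univ) h0
    simp only [Measure.smul_apply, smul_eq_mul, Measure.coe_zero, Pi.zero_apply, mul_eq_zero,
      ENNReal.ofReal_eq_zero, not_le.2 hc, false_or] at h1
    exact h.ne (Measure.measure_univ_eq_zero.1 h1)

theorem lintegral_rho (h : LC ρ) : ∫⁻ x, ENNReal.ofReal (ρ x) = mu ρ univ := by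
  unfold Pool.Agent.H212R2.KLS.mu
  rw [withDensity_apply _ MeasurableSet.univ, setLIntegral_univ]

theorem int_rho (h : LC ρ) : ∫ x, ρ x = (mu ρ univ).toReal := by
  rw [← lintegral_rho h, integral_eq_lintegral_of_nonneg_ae (Eventually.of_forall h.nonneg)
    h.meas.aestronglyMeasurable]

theorem mass_pos (h : LC ρ) : 0 < ∫ x, ρ x := by
  rw [int_rho h]
  exact ENNReal.toReal_pos (fun h0 => h.ne (Measure.measure_univ_eq_zero.1 h0)) h.fin

/-- **job FD-DLP** -/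
theorem dlp (h1 : S_DLM) (h2 : S_EML) : S_DLP := by
  obtain ⟨C, hC, H⟩ := h2
  refine ⟨max C 1, le_max_right _ _, ?_⟩
  intro κ _ ρ hρ D₀ h₀ hh₀ hyp
  have hm := mass_pos hρ
  set m := ∫ x, ρ x with hmd
  -- the approximations
  have hj0 : ∀ j : ℕ, 0 < h₀ / ((j : ℝ) + 1) := fun j => by positivity
  have hj1 : ∀ j : ℕ, h₀ / ((j : ℝ) + 1) ≤ h₀ := fun j =>
    div_le_self hh₀.le (by have : (0 : ℝ) ≤ j := Nat.cast_nonneg j; linarith)
  have ht : Tendsto (fun j : ℕ => h₀ / ((j : ℝ) + 1)) atTop (𝓝 0) :=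
    tendsto_const_div_atTop_nhds_zero_nat h₀ |>.comp (tendsto_add_atTop_nat 1) |>.congr
      (fun j => by simp)
  have hdlm := h1 κ ρ hρ _ ht hj0
  have hZ' : Tendsto (fun j : ℕ => ∫ x, Real.exp (-Uh (h₀ / ((j : ℝ) + 1)) ρ x)) atTop (𝓝 m) := by
    have := (hdlm (fun _ => 1) 1 0 measurable_const (fun x => by simp)).2
    simpa only [one_mul] using this
  -- Lipschitz functions
  have key : ∀ v : Eu κ → ℝ, ContDiff ℝ 1 v → (∀ x, ‖fderiv ℝ v x‖ ≤ 1) →
      (∫ x, v x ^ 2 * ρ x) / m - ((∫ x, v x * ρ x) / m) ^ 2 ≤ D₀ := by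
    intro v hv hv1
    have hb : ∀ x, |v x| ≤ (|v 0| + 1) * (1 + ‖x‖) := by
      intro x
      have h4 := Pool.Agent.Q151.EM.lin_growth hv hv1 x
      have h5 := norm_nonneg x
      have h6 := abs_nonneg (v 0)
      nlinarith
    have g1 := (hdlm v (|v 0| + 1) 1 hv.continuous.measurable
      (fun x => by rw [pow_one]; exact hb x)).2
    have g2 := (hdlm (fun x => v x ^ 2) ((|v 0| + 1) ^ 2) 2 (hv.continuous.pow 2).measurable
      (fun x => by
        rw [abs_pow, ← mul_pow]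
        exact pow_le_pow_left₀ (abs_nonneg _) (hb x) 2)).2
    have g3 := (g2.div hZ' hm.ne').sub ((g1.div hZ' hm.ne').pow 2)
    exact le_of_tendsto g3 (Eventually.of_forall fun j => hyp _ (hj0 j) (hj1 j) v hv hv1)
  have hD0 : 0 ≤ D₀ := by
    have h4 := key (fun _ => 0) contDiff_const (fun x => by simp)
    simpa using h4
  -- Milman's theorem for the normalised density
  intro f hf
  have hc : 0 < m⁻¹ := inv_pos.2 hm
  have hLC := lc_smul hc hρ
  have hmass : mu (fun x => m⁻¹ * ρ x) univ = 1 := by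
    rw [mu_smul hc, Measure.smul_apply, smul_eq_mul]
    have e1 : mu ρ univ = ENNReal.ofReal m := by
      rw [hmd, int_rho hρ, ENNReal.ofReal_toReal hρ.fin]
    rw [e1, ← ENNReal.ofReal_mul hc.le, inv_mul_cancel₀ hm.ne', ENNReal.ofReal_one]
  have hint : ∀ g : Eu κ → ℝ, ∫ x, g x ∂(mu fun x => m⁻¹ * ρ x) = (∫ x, g x * ρ x) / m := by
    intro g
    rw [Pool.Agent.H888R2.KT.V3x.int_mu _ hLC.nonneg hLC.meas, div_eq_inv_mul, ← integral_const_mul]
    refine integral_congr_ae (Eventually.of_forall fun x => ?_)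
    simp only
    ring
  have h4 := H κ (fun x => m⁻¹ * ρ x) hLC hmass D₀ (fun v hv hv1 => by
    rw [hint, hint]
    exact key v hv hv1) f hf
  rw [hint, hint, hint] at h4
  have h5 : 0 ≤ ∫ x, ‖fderiv ℝ f x‖ ^ 2 * ρ x :=
    integral_nonneg fun x => mul_nonneg (sq_nonneg _) (hρ.nonneg x)
  have h6 : C * D₀ ≤ max C 1 * D₀ := mul_le_mul_of_nonneg_right (le_max_left _ _) hD0
  have h7 : m * (∫ x, f x ^ 2 * ρ x) - (∫ x, f x * ρ x) ^ 2 =
      m ^ 2 * ((∫ x, f x ^ 2 * ρ x) / m - ((∫ x, f x * ρ x) / m) ^ 2) := by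
    field_simp
  have h8 : m ^ 2 * (C * D₀ * ((∫ x, ‖fderiv ℝ f x‖ ^ 2 * ρ x) / m)) =
      C * D₀ * (m * ∫ x, ‖fderiv ℝ f x‖ ^ 2 * ρ x) := by
    field_simp
  rw [h7]
  refine (mul_le_mul_of_nonneg_left h4 (sq_nonneg m)).trans ?_
  rw [h8, mul_assoc (max C 1 * D₀)]
  exact mul_le_mul_of_nonneg_right h6 (mul_nonneg hm.le h5)

end Pool.Agent.Q214.EM
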